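import Mathlib

set_option autoImplicit false

namespace Pool.Agent.Results.MP_3790b3_al.NonFiniteStateFinProp

/-- A self-similar action `(G, X)`: a faithful action `act` of the group `G` on the free monoid
`X^*` of finite words over `X` (realised as `List X`, with `[]` the empty word and `++` the
concatenation) together with restriction maps `res g w = g|_w`. -/
structure SelfSimilarAction (G X : Type) [Group G] where
  /-- `act g w = g(w)` -/
  act : G → List X → List X
  /-- `res g w = g|_w` -/
  res : G → List X → G
  act_one : ∀ w, act 1 w = w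
  act_mul : ∀ g h w, act (g * h) w = act g (act h w)
  faithful : ∀ g, (∀ w, act g w = w) → g = 1
  act_nil : ∀ g, act g [] = []
  res_nil : ∀ g, res g [] = g
  act_append : ∀ g u v, act g (u ++ v) = act g u ++ act (res g u) v
  res_append : ∀ g u v, res g (u ++ v) = res (res g u) v
  res_mul : ∀ g h u, res (g * h) u = res g (act h u) * res h u

namespace SelfSimilarAction

variable {G X : Type} [Group G]

/-- The action is finite state if every `g` has only finitely many restrictions `g|_w`. -/
def FiniteState (A : SelfSimilarAction G X) : Prop :=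
  ∀ g : G, {k : G | ∃ w : List X, k = A.res g w}.Finite

/-- Finite propagation of the Zappa-Szep product `X^* ⋈ G`: for every pair `g, h` there is a
family `(x_w)` with `x_∅ = 1` such that both sets `{x_{g(w)}⁻¹ g|_w x_w}` and
`{x_{h(w)}⁻¹ h|_w x_w}` are finite. -/
def FinitePropagation (A : SelfSimilarAction G X) : Prop :=
  ∀ g h : G, ∃ x : List X → G, x [] = 1 ∧
    {k : G | ∃ w : List X, k = (x (A.act g w))⁻¹ * A.res g w * x w}.Finite ∧
    {k : G | ∃ w : List X, k = (x (A.act h w))⁻¹ * A.res h w * x w}.Finite

end SelfSimilarAction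

/-- The alphabet with four letters. A letter is `(c, b)`; the generator flips `b`. -/
abbrev Letter : Type := Bool × Bool

/-- parity flip: `n` flips `b` iff `n` is odd -/
def flip (n : ℤ) (b : Bool) : Bool := xor b (decide (n % 2 = 1))

/-- the shift attached to a letter of the first cycle -/
def sh (b : Bool) : ℤ := if b then 2 else 0

/-- the letter action of `n : ℤ` -/
def sig (n : ℤ) (z : Letter) : Letter := (z.1, flip n z.2)

/-- the restriction of `n : ℤ` at a letter -/
def cc (n : ℤ) (z : Letter) : ℤ :=
  if z.1 then (if z.2 then (n + 1) / 2 else n / 2) else n + sh (flip n z.2) - sh z.2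

/-- the action on words -/
def actZ : ℤ → List Letter → List Letter
  | _, [] => []
  | n, z :: w => sig n z :: actZ (cc n z) w

/-- the restriction at words -/
def resZ : ℤ → List Letter → ℤ
  | n, [] => n
  | n, z :: w => resZ (cc n z) w

/-- one step of the transversal -/
def step (y : ℤ) (z : Letter) : ℤ := if z.1 then -(cc (-y) z) else y + sh z.2

/-- the transversal -/
def yy : ℤ → List Letter → ℤ
  | y, [] => y
  | y, z :: w => yy (step y z) w

lemma sig_zero (z : Letter) : sig 0 z = z := by
  rcases z with ⟨c, b⟩; cases b <;> simp [sig, flip]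

lemma cc_zero (z : Letter) : cc 0 z = 0 := by
  rcases z with ⟨c, b⟩; cases c <;> cases b <;> simp [cc, flip, sh]

lemma sig_add (m n : ℤ) (z : Letter) : sig (m + n) z = sig m (sig n z) := by
  rcases z with ⟨c, b⟩
  have h1 : m % 2 = 0 ∨ m % 2 = 1 := by omega
  have h2 : n % 2 = 0 ∨ n % 2 = 1 := by omega
  rcases h1 with h1 | h1 <;> rcases h2 with h2 | h2
  · have h3 : (m + n) % 2 = 0 := by omega
    simp [sig, flip, h1, h2, h3]
  · have h3 : (m + n) % 2 = 1 := by omega
    simp [sig, flip, h1, h2, h3]
  · have h3 : (m + n) % 2 = 1 := by omega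
    simp [sig, flip, h1, h2, h3]
  · have h3 : (m + n) % 2 = 0 := by omega
    simp [sig, flip, h1, h2, h3]

lemma cc_add (m n : ℤ) (z : Letter) : cc (m + n) z = cc m (sig n z) + cc n z := by
  rcases z with ⟨c, b⟩
  have h1 : m % 2 = 0 ∨ m % 2 = 1 := by omega
  have h2 : n % 2 = 0 ∨ n % 2 = 1 := by omega
  rcases h1 with h1 | h1 <;> rcases h2 with h2 | h2
  · have h3 : (m + n) % 2 = 0 := by omega
    cases c <;> cases b <;> simp [cc, sig, flip, sh, h1, h2, h3] <;> omega
  · have h3 : (m + n) % 2 = 1 := by omega
    cases c <;> cases b <;> simp [cc, sig, flip, sh, h1, h2, h3] <;> omega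
  · have h3 : (m + n) % 2 = 1 := by omega
    cases c <;> cases b <;> simp [cc, sig, flip, sh, h1, h2, h3] <;> omega
  · have h3 : (m + n) % 2 = 0 := by omega
    cases c <;> cases b <;> simp [cc, sig, flip, sh, h1, h2, h3] <;> omega

lemma actZ_zero (w : List Letter) : actZ 0 w = w := by
  induction w with
  | nil => rfl
  | cons z w ih => simp [actZ, sig_zero, cc_zero, ih]

lemma resZ_zero (w : List Letter) : resZ 0 w = 0 := by
  induction w with
  | nil => rfl
  | cons z w ih => simp [resZ, cc_zero, ih]

lemma actZ_add (w : List Letter) : ∀ m n : ℤ, actZ (m + n) w = actZ m (actZ n w) := by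
  induction w with
  | nil => intro m n; rfl
  | cons z w ih =>
    intro m n
    simp only [actZ]
    rw [sig_add, cc_add, ih]

lemma resZ_add (w : List Letter) : ∀ m n : ℤ, resZ (m + n) w = resZ m (actZ n w) + resZ n w := by
  induction w with
  | nil => intro m n; rfl
  | cons z w ih =>
    intro m n
    simp only [actZ, resZ]
    rw [cc_add, ih]

lemma actZ_append (u v : List Letter) : ∀ n : ℤ, actZ n (u ++ v) = actZ n u ++ actZ (resZ n u) v := by
  induction u with
  | nil => intro n; rfl
  | cons z u ih => intro n; simp [actZ, resZ, ih]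

lemma resZ_append (u v : List Letter) : ∀ n : ℤ, resZ n (u ++ v) = resZ (resZ n u) v := by
  induction u with
  | nil => intro n; rfl
  | cons z u ih => intro n; simp [resZ, ih]

/-- the action is faithful, already on words over the two letters `(true, _)` -/
lemma faithfulZ : ∀ (k : ℕ) (n : ℤ), n.natAbs ≤ k → (∀ w, actZ n w = w) → n = 0 := by
  intro k
  induction k with
  | zero => intro n hn _; omega
  | succ k ih =>
    intro n hn h
    have h1 := h [(true, false)]
    have hpar : n % 2 = 0 := by
      by_contra hc
      have h2 : n % 2 = 1 := by omega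
      simp [actZ, sig, flip, h2] at h1
    by_cases hz : n = 0
    · exact hz
    have h3 : cc n (true, false) = n / 2 := by simp [cc]
    have h4 : n / 2 = 0 := by
      apply ih (n / 2)
      · omega
      · intro w
        have h5 := h ((true, false) :: w)
        simp only [actZ, h3, List.cons.injEq] at h5
        exact h5.2
    omega

/-- the example -/
def A : SelfSimilarAction (Multiplicative ℤ) Letter where
  act g w := actZ g.toAdd w
  res g w := Multiplicative.ofAdd (resZ g.toAdd w)
  act_one w := actZ_zero w
  act_mul g h w := actZ_add w _ _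
  faithful g h := by
    have := faithfulZ g.toAdd.natAbs g.toAdd le_rfl h
    exact Multiplicative.toAdd.injective this
  act_nil g := rfl
  res_nil g := rfl
  act_append g u v := actZ_append u v _
  res_append g u v := by
    apply Multiplicative.toAdd.injective
    exact resZ_append u v _
  res_mul g h u := by
    apply Multiplicative.toAdd.injective
    exact resZ_add u _ _

lemma resZ_replicate (k : ℕ) : ∀ n : ℤ, n % 2 = 1 →
    resZ n (List.replicate k (false, false)) = n + 2 * k := by
  induction k with
  | zero => intro n _; simp [resZ]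
  | succ k ih =>
    intro n hn
    have h1 : cc n (false, false) = n + 2 := by simp [cc, flip, sh, hn]
    rw [List.replicate_succ, resZ, h1, ih (n + 2) (by omega)]
    push_cast; ring

lemma not_finiteState : ¬ A.FiniteState := by
  intro h
  have h1 := h (Multiplicative.ofAdd 1)
  have h2 : (Set.range fun k : ℕ => (Multiplicative.ofAdd (1 + 2 * (k : ℤ)))).Finite := by
    apply h1.subset
    rintro _ ⟨k, rfl⟩
    refine ⟨List.replicate k (false, false), ?_⟩
    have := resZ_replicate k 1 (by norm_num)
    apply Multiplicative.toAdd.injective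
    exact this.symm
  refine Set.infinite_range_of_injective ?_ h2
  intro a b hab
  have : (1 + 2 * (a : ℤ)) = 1 + 2 * (b : ℤ) := hab
  omega

lemma step_bound (n y y' : ℤ) (z : Letter) (B : ℤ) (hB : 1 ≤ B) (h : |n + y - y'| ≤ B) :
    |cc n z + step y z - step y' (sig n z)| ≤ B := by
  rw [abs_le] at h ⊢
  obtain ⟨ha, hb⟩ := h
  rcases z with ⟨c, b⟩
  have h1 : n % 2 = 0 ∨ n % 2 = 1 := by omega
  rcases h1 with h1 | h1 <;> cases c <;> cases b <;>
    simp [cc, step, sig, flip, sh, h1] <;> omega

lemma bound (B : ℤ) (hB : 1 ≤ B) (w : List Letter) : ∀ n y y' : ℤ, |n + y - y'| ≤ B →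
    |resZ n w + yy y w - yy y' (actZ n w)| ≤ B := by
  induction w with
  | nil => intro n y y' h; simpa [resZ, yy, actZ] using h
  | cons z w ih =>
    intro n y y' h
    simp only [resZ, yy, actZ]
    exact ih _ _ _ (step_bound n y y' z B hB h)

lemma fin_one (g : Multiplicative ℤ) :
    {k : Multiplicative ℤ | ∃ w : List Letter,
      k = (Multiplicative.ofAdd (yy 0 (A.act g w)))⁻¹ * A.res g w *
        Multiplicative.ofAdd (yy 0 w)}.Finite := by
  set B : ℤ := max |g.toAdd| 1 with hB
  have hfin : (Multiplicative.ofAdd '' (Set.Icc (-B) B)).Finite :=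
    (Set.finite_Icc (-B) B).image _
  apply hfin.subset
  rintro _ ⟨w, rfl⟩
  refine ⟨-(yy 0 (actZ g.toAdd w)) + resZ g.toAdd w + yy 0 w, ?_, rfl⟩
  have h1 := bound B (le_max_right _ _) w g.toAdd 0 0 (by simp [hB])
  rw [abs_le] at h1
  rw [Set.mem_Icc]
  constructor <;> linarith [h1.1, h1.2]

lemma finitePropagation : A.FinitePropagation := by
  intro g h
  exact ⟨fun w => Multiplicative.ofAdd (yy 0 w), rfl, fin_one g, fin_one h⟩

/-- There is a self-similar action of the infinite cyclic group over an alphabet with four letters
which is not finite state while its Zappa-Szep product `X^* ⋈ G` has finite propagation. -/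
theorem result : ∃ A : SelfSimilarAction (Multiplicative ℤ) (Bool × Bool),
    ¬ A.FiniteState ∧ A.FinitePropagation :=
  ⟨A, not_finiteState, finitePropagation⟩

end Pool.Agent.Results.MP_3790b3_al.NonFiniteStateFinProp
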